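import Pool.Agent.Helper40.TGF.Full

/-!
MP_b4da01_an.  Full affirmative answer to Q1: a Banach space with a twice Gateaux differentiable
norm which contains no copy of `c₀` is superreflexive.
-/

set_option autoImplicit false

open Pool.Agent.Helper34.TG

universe u v

/-- Let `X` be a real Banach space which admits a twice Gateaux differentiable norm and which
contains no copy of `c₀`.  Then `X` is superreflexive. -/
theorem Pool.Agent.Results.MP_b4da01_an.NoC0.result
    (X : Type u) [NormedAddCommGroup X] [NormedSpace ℝ X] [CompleteSpace X]
    (hsmooth : AdmitsTwiceGateauxNorm X) (hc0 : ¬ ContainsC0 X) :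
    IsSuperreflexive.{u, v} X :=
  isSuperreflexive_of_not_c0 hsmooth hc0
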